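import Mathlib

/-! Real-valued pinwheel scheduling: Beatty splitting, Kraft packing, averaging over the bases. -/

set_option autoImplicit false

namespace Pool.Agent.H210R2.Pin

open Finset

/-- every window of `p i` consecutive integers contains the task `i` -/
def IV {ι : Type} (S : ℤ → Option ι) (s : Finset ι) (p : ι → ℕ) : Prop :=
  ∀ i ∈ s, ∀ m : ℤ, ∃ t : ℤ, m ≤ t ∧ t < m + p i ∧ S t = some i

lemma IV_count {ι : Type} [DecidableEq ι] {S : ℤ → Option ι} {s : Finset ι} {p : ι → ℕ}
    (h : IV S s p) (i : ι) (hi : i ∈ s) (l : ℕ) :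
    ∀ x y : ℤ, x + l * p i ≤ y → l ≤ ((Ico x y).filter (fun t => S t = some i)).card := by
  induction l with
  | zero => intro x y _; exact Nat.zero_le _
  | succ l ih =>
    intro x y hxy
    have hxy' : x + p i + l * p i ≤ y := by
      push_cast at hxy
      linarith
    have hlp : (0 : ℤ) ≤ l * p i := by positivity
    have hp0 : (0 : ℤ) ≤ p i := by positivity
    have h1 := ih (x + p i) y hxy'
    obtain ⟨t, ht1, ht2, ht3⟩ := h i hi x
    have hsub : insert t ((Ico (x + p i) y).filter (fun t => S t = some i)) ⊆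
        (Ico x y).filter (fun t => S t = some i) := by
      intro z hz
      rw [mem_insert] at hz
      rcases hz with rfl | hz
      · rw [mem_filter, mem_Ico]
        exact ⟨⟨ht1, by linarith⟩, ht3⟩
      · rw [mem_filter, mem_Ico] at hz ⊢
        exact ⟨⟨by linarith [hz.1.1], hz.1.2⟩, hz.2⟩
    have hc := card_le_card hsub
    rw [card_insert_of_notMem (by
      rw [mem_filter, mem_Ico]
      rintro ⟨⟨h3, _⟩, _⟩
      linarith)] at hc
    omega

lemma step_mono {F : ℤ → ℤ} (hF : ∀ t, F (t + 1) = F t ∨ F (t + 1) = F t + 1) (m : ℤ) (L : ℕ) :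
    F m ≤ F (m + L) := by
  induction L with
  | zero => simp
  | succ L ih =>
    have : m + ((L + 1 : ℕ) : ℤ) = (m + L) + 1 := by push_cast; ring
    rw [this]
    rcases hF (m + L) with h | h <;> linarith

lemma step_count {F : ℤ → ℤ} (hF : ∀ t, F (t + 1) = F t ∨ F (t + 1) = F t + 1) (Q : ℤ → Prop)
    [DecidablePred Q] (m : ℤ) (L : ℕ) :
    ((Ico m (m + L)).filter (fun t => F (t + 1) = F t + 1 ∧ Q (F t))).card =
      ((Ico (F m) (F (m + L))).filter Q).card := by
  induction L with
  | zero => simp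
  | succ L ih =>
    have e1 : m + ((L + 1 : ℕ) : ℤ) = (m + L) + 1 := by push_cast; ring
    rw [e1]
    have e2 : Ico m (m + L + 1) = insert (m + L) (Ico m (m + L)) := by
      ext z
      simp only [mem_insert, mem_Ico]
      constructor
      · intro h; omega
      · intro h; rcases h with h | h <;> omega
    have hm := step_mono hF m L
    rw [e2, filter_insert]
    rcases hF (m + L) with h | h
    · rw [if_neg (by rintro ⟨h1, _⟩; omega), ih, h]
    · have e3 : Ico (F m) (F (m + L + 1)) = insert (F (m + L)) (Ico (F m) (F (m + L))) := by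
        rw [h]
        ext z
        simp only [mem_insert, mem_Ico]
        constructor
        · intro h; omega
        · intro h; rcases h with h | h <;> omega
      rw [e3, filter_insert]
      by_cases hQ : Q (F (m + L))
      · rw [if_pos ⟨h, hQ⟩, if_pos hQ, card_insert_of_notMem (by simp),
          card_insert_of_notMem (by simp), ih]
      · rw [if_neg (fun h1 => hQ h1.2), if_neg hQ, ih]

/-- splitting of the days by a Beatty sequence -/
theorem combine {ι : Type} [DecidableEq ι] (s1 s2 : Finset ι) (p1 p2 : ι → ℕ)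
    (S1 S2 : ℤ → Option ι) (h1 : IV S1 s1 p1) (h2 : IV S2 s2 p2) (a : ι → ℝ) (w : ℝ)
    (hw0 : 0 ≤ w) (hw1 : w ≤ 1) (ha : ∀ i, 0 ≤ a i) (ha1 : ∀ i ∈ s1, (p1 i : ℝ) ≤ w * a i)
    (ha2 : ∀ i ∈ s2, (p2 i : ℝ) ≤ (1 - w) * a i) :
    ∃ S : ℤ → Option ι, ∀ i, i ∈ s1 ∨ i ∈ s2 → ∀ (l : ℕ) (m : ℤ),
      l ≤ ((Ico m (m + ⌈(l : ℝ) * a i⌉)).filter (fun t => S t = some i)).card := by
  set F : ℤ → ℤ := fun t => ⌊(t : ℝ) * w⌋ with hFd
  have hF : ∀ t, F (t + 1) = F t ∨ F (t + 1) = F t + 1 := by
    intro t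
    have e : (((t + 1 : ℤ)) : ℝ) * w = (t : ℝ) * w + w := by push_cast; ring
    have b1 : F t ≤ F (t + 1) := by
      simp only [hFd]
      rw [e]
      exact Int.floor_le_floor (by linarith)
    have b2 : F (t + 1) ≤ F t + 1 := by
      simp only [hFd]
      rw [e, ← Int.floor_add_one]
      exact Int.floor_le_floor (by linarith)
    omega
  set G : ℤ → ℤ := fun t => t - F t with hGd
  have hG : ∀ t, G (t + 1) = G t ∨ G (t + 1) = G t + 1 := by
    intro t
    simp only [hGd]
    rcases hF t with h | h <;> omega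
  refine ⟨fun t => if F (t + 1) = F t + 1 then S1 (F t) else S2 (G t), ?_⟩
  intro i hi l m
  have hLnn : (0 : ℝ) ≤ (l : ℝ) * a i := mul_nonneg (Nat.cast_nonneg _) (ha i)
  have hLnn' : 0 ≤ ⌈(l : ℝ) * a i⌉ := Int.ceil_nonneg hLnn
  obtain ⟨L, hL⟩ := Int.eq_ofNat_of_zero_le hLnn'
  have hLge : (l : ℝ) * a i ≤ (L : ℝ) := by
    have := Int.le_ceil ((l : ℝ) * a i)
    rw [hL] at this
    exact_mod_cast this
  rw [hL]
  rcases hi with hi | hi
  · have hcount := step_count hF (fun x => S1 x = some i) m L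
    have hge : l ≤ ((Ico (F m) (F (m + L))).filter (fun x => S1 x = some i)).card := by
      apply IV_count h1 i hi l
      have h3 : (((F m + l * p1 i : ℤ)) : ℝ) ≤ (((m + L : ℤ)) : ℝ) * w := by
        push_cast
        have h4 : ((F m : ℤ) : ℝ) ≤ (m : ℝ) * w := Int.floor_le _
        have h5 : (l : ℝ) * (p1 i : ℝ) ≤ (l : ℝ) * (w * a i) :=
          mul_le_mul_of_nonneg_left (ha1 i hi) (Nat.cast_nonneg _)
        have h6 : ((l : ℝ) * a i) * w ≤ (L : ℝ) * w := mul_le_mul_of_nonneg_right hLge hw0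
        nlinarith
      exact Int.le_floor.mpr h3
    rw [← hcount] at hge
    refine hge.trans (card_le_card ?_)
    intro t ht
    rw [mem_filter] at ht ⊢
    refine ⟨ht.1, ?_⟩
    simp only
    rw [if_pos ht.2.1]
    exact ht.2.2
  · have hcount := step_count hG (fun x => S2 x = some i) m L
    have hge : l ≤ ((Ico (G m) (G (m + L))).filter (fun x => S2 x = some i)).card := by
      apply IV_count h2 i hi l
      have h3 : F (m + L) < F m + 1 + L - l * p2 i := by
        simp only [hFd]
        rw [Int.floor_lt]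
        push_cast
        have h4 : (m : ℝ) * w < ((F m : ℤ) : ℝ) + 1 := Int.lt_floor_add_one _
        have h5 : (l : ℝ) * (p2 i : ℝ) ≤ (l : ℝ) * ((1 - w) * a i) :=
          mul_le_mul_of_nonneg_left (ha2 i hi) (Nat.cast_nonneg _)
        have h6 : ((l : ℝ) * a i) * (1 - w) ≤ (L : ℝ) * (1 - w) :=
          mul_le_mul_of_nonneg_right hLge (by linarith)
        have h7 : ((F m : ℤ) : ℝ) = (⌊(m : ℝ) * w⌋ : ℝ) := rfl
        rw [← h7]
        nlinarith
      simp only [hGd]
      omega
    rw [← hcount] at hge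
    refine hge.trans (card_le_card ?_)
    intro t ht
    rw [mem_filter] at ht ⊢
    refine ⟨ht.1, ?_⟩
    simp only
    rw [if_neg]
    · exact ht.2.2
    · intro h
      have h8 := ht.2.1
      simp only [hGd] at h8
      omega

end Pool.Agent.H210R2.Pin
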