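import Pool.Agent.H210R2.PinA

/-! Kraft packing with base `n` and averaging over the bases. -/

set_option autoImplicit false

namespace Pool.Agent.H210R2.Pin

open Finset

lemma kraft {ι : Type} [DecidableEq ι] (n : ℕ) (hn : 0 < n) (h : ι → ℕ) (s : Finset ι) :
    (∑ i ∈ s, (1 / 2 : ℝ) ^ h i) ≤ n →
    ∃ r : ι → ℤ, ∀ i ∈ s, ∀ j ∈ s, i ≠ j → ∀ x : ℤ,
      ¬ (((n * 2 ^ h i : ℕ) : ℤ) ∣ x - r i ∧ ((n * 2 ^ h j : ℕ) : ℤ) ∣ x - r j) := by
  induction s using Finset.induction_on_max_value h with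
  | empty => intro _; exact ⟨fun _ => 0, by simp⟩
  | insert a s has hmax ih =>
    intro hsum
    rw [sum_insert has] at hsum
    have hpos : (0 : ℝ) < (1 / 2 : ℝ) ^ h a := by positivity
    obtain ⟨r, hr⟩ := ih (by linarith)
    set M : ℕ := n * 2 ^ h a with hM
    set B : Finset ℕ := s.biUnion (fun x => (range M).filter
      (fun y : ℕ => ((n * 2 ^ h x : ℕ) : ℤ) ∣ (y : ℤ) - r x)) with hB
    have hcardx : ∀ x ∈ s, ((range M).filter
        (fun y : ℕ => ((n * 2 ^ h x : ℕ) : ℤ) ∣ (y : ℤ) - r x)).card ≤ 2 ^ (h a - h x) := by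
      intro x hx
      have hq : 0 < n * 2 ^ h x := by positivity
      have hMq : M = (n * 2 ^ h x) * 2 ^ (h a - h x) := by
        rw [hM, mul_assoc, ← pow_add, Nat.add_sub_cancel' (hmax x hx)]
      have key : ((range M).filter
          (fun y : ℕ => ((n * 2 ^ h x : ℕ) : ℤ) ∣ (y : ℤ) - r x)).card ≤
          (range (2 ^ (h a - h x))).card := by
        apply card_le_card_of_injOn (fun y => y / (n * 2 ^ h x))
        · intro y hy
          rw [mem_coe, mem_filter, mem_range] at hy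
          rw [mem_coe, mem_range]
          show y / (n * 2 ^ h x) < _
          rw [Nat.div_lt_iff_lt_mul hq, mul_comm, ← hMq]
          exact hy.1
        · intro y hy y' hy' hyy
          rw [mem_coe, mem_filter] at hy hy'
          have hyy' : y / (n * 2 ^ h x) = y' / (n * 2 ^ h x) := hyy
          have hd : ((n * 2 ^ h x : ℕ) : ℤ) ∣ (y : ℤ) - y' := by
            have e0 : (y : ℤ) - y' = ((y : ℤ) - r x) - ((y' : ℤ) - r x) := by ring
            rw [e0]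
            exact dvd_sub hy.2 hy'.2
          have hmod : y ≡ y' [MOD (n * 2 ^ h x)] := by
            rw [← Int.natCast_modEq_iff]
            exact (Int.modEq_iff_dvd.mpr (by
              have e0 : (y' : ℤ) - y = - ((y : ℤ) - y') := by ring
              rw [e0]
              exact dvd_neg.mpr hd))
          have e1 := Nat.div_add_mod y (n * 2 ^ h x)
          have e2 := Nat.div_add_mod y' (n * 2 ^ h x)
          have e3 : y % (n * 2 ^ h x) = y' % (n * 2 ^ h x) := hmod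
          rw [← e1, ← e2, hyy', e3]
      rwa [card_range] at key
    have hBcard : B.card < M := by
      have h1 : B.card ≤ ∑ x ∈ s, 2 ^ (h a - h x) :=
        card_biUnion_le.trans (sum_le_sum hcardx)
      have h2 : ((∑ x ∈ s, 2 ^ (h a - h x) : ℕ) : ℝ) = 2 ^ h a * ∑ x ∈ s, (1 / 2 : ℝ) ^ h x := by
        push_cast
        rw [mul_sum]
        apply sum_congr rfl
        intro x hx
        rw [one_div, inv_pow, pow_sub₀ (2 : ℝ) (by norm_num) (hmax x hx)]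
      have h3 : (2 : ℝ) ^ h a * (1 / 2 : ℝ) ^ h a = 1 := by
        rw [← mul_pow]
        norm_num
      have h4 : (0 : ℝ) < 2 ^ h a := by positivity
      have h5 : ((∑ x ∈ s, 2 ^ (h a - h x) : ℕ) : ℝ) < (M : ℝ) := by
        rw [h2, hM]
        push_cast
        nlinarith
      have h6 : (∑ x ∈ s, 2 ^ (h a - h x) : ℕ) < M := by exact_mod_cast h5
      omega
    obtain ⟨y, hy1, hy2⟩ : ∃ y ∈ range M, y ∉ B := by
      by_contra hcon
      push Not at hcon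
      have := card_le_card (show range M ⊆ B from hcon)
      rw [card_range] at this
      omega
    have hyB : ∀ x ∈ s, ¬ ((n * 2 ^ h x : ℕ) : ℤ) ∣ (y : ℤ) - r x := by
      intro x hx hd
      apply hy2
      rw [hB, mem_biUnion]
      exact ⟨x, hx, mem_filter.mpr ⟨hy1, hd⟩⟩
    have hno : ∀ j ∈ s, ∀ x : ℤ, ((n * 2 ^ h a : ℕ) : ℤ) ∣ x - y →
        ((n * 2 ^ h j : ℕ) : ℤ) ∣ x - r j → False := by
      intro j hj x hx1 hx2
      apply hyB j hj
      have hdd : ((n * 2 ^ h j : ℕ) : ℤ) ∣ ((n * 2 ^ h a : ℕ) : ℤ) := by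
        exact_mod_cast Nat.mul_dvd_mul_left n (pow_dvd_pow 2 (hmax j hj))
      have e0 : (y : ℤ) - r j = (x - r j) - (x - y) := by ring
      rw [e0]
      exact dvd_sub hx2 (hdd.trans hx1)
    refine ⟨fun i => if i = a then (y : ℤ) else r i, ?_⟩
    intro i hi j hj hij x
    rintro ⟨hx1, hx2⟩
    simp only at hx1 hx2
    rw [mem_insert] at hi hj
    by_cases hia : i = a
    · subst hia
      rw [if_pos rfl] at hx1
      rw [if_neg (Ne.symm hij)] at hx2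
      rcases hj with hj | hj
      · exact hij hj.symm
      · exact hno j hj x hx1 hx2
    · rw [if_neg hia] at hx1
      by_cases hja : j = a
      · subst hja
        rw [if_pos rfl] at hx2
        rcases hi with hi | hi
        · exact hij hi
        · exact hno i hi x hx2 hx1
      · rw [if_neg hja] at hx2
        exact hr i (hi.resolve_left hia) j (hj.resolve_left hja) hij x ⟨hx1, hx2⟩

/-- Kraft packing gives a schedule -/
theorem kraft_sched {ι : Type} [DecidableEq ι] (n : ℕ) (hn : 0 < n) (h : ι → ℕ) (s : Finset ι)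
    (hs : (∑ i ∈ s, (1 / 2 : ℝ) ^ h i) ≤ n) :
    ∃ S : ℤ → Option ι, IV S s (fun i => n * 2 ^ h i) := by
  classical
  obtain ⟨r, hr⟩ := kraft n hn h s hs
  refine ⟨fun x => if hx : ∃ i ∈ s, ((n * 2 ^ h i : ℕ) : ℤ) ∣ x - r i then some hx.choose else none, ?_⟩
  intro i hi m
  have hp : (0 : ℤ) < ((n * 2 ^ h i : ℕ) : ℤ) := by positivity
  refine ⟨m + (r i - m) % ((n * 2 ^ h i : ℕ) : ℤ), ?_, ?_, ?_⟩
  · have := Int.emod_nonneg (r i - m) (ne_of_gt hp)
    linarith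
  · have := Int.emod_lt_of_pos (r i - m) hp
    linarith
  · have hd : ((n * 2 ^ h i : ℕ) : ℤ) ∣ (m + (r i - m) % ((n * 2 ^ h i : ℕ) : ℤ)) - r i := by
      have h1 := Int.emod_add_mul_ediv (r i - m) ((n * 2 ^ h i : ℕ) : ℤ)
      refine ⟨- ((r i - m) / ((n * 2 ^ h i : ℕ) : ℤ)), ?_⟩
      linarith
    have hex : ∃ j ∈ s, ((n * 2 ^ h j : ℕ) : ℤ) ∣
        (m + (r i - m) % ((n * 2 ^ h i : ℕ) : ℤ)) - r j := ⟨i, hi, hd⟩
    simp only
    rw [dif_pos hex]
    congr 1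
    by_contra hne
    exact hr _ hex.choose_spec.1 i hi hne _ ⟨hex.choose_spec.2, hd⟩

/-- `1/(n+1) + ... + 1/(2n)` -/
noncomputable def tau (n : ℕ) : ℝ := ∑ m ∈ Ico n (2 * n), 1 / ((m : ℝ) + 1)

lemma telesc (p : ℕ) (hp : 0 < p) (q : ℕ) (hq : p ≤ q) :
    ∑ m ∈ Ico p q, 1 / ((m : ℝ) * (m + 1)) = 1 / p - 1 / q := by
  induction q, hq using Nat.le_induction with
  | base => simp
  | succ q hq ih =>
    rw [Finset.sum_Ico_succ_top hq, ih]
    have hq0 : (q : ℝ) ≠ 0 := by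
      have : 0 < q := by omega
      positivity
    have hq1 : (q : ℝ) + 1 ≠ 0 := by positivity
    push_cast
    field_simp
    ring

/-- the exponent of the task with period `b` for the base `m` -/
noncomputable def hh (n : ℕ) (b : ℝ) (m : ℕ) : ℕ :=
  if (m : ℝ) * 2 ^ (Nat.log 2 ⌊b / n⌋₊) ≤ b then Nat.log 2 ⌊b / n⌋₊ else Nat.log 2 ⌊b / n⌋₊ - 1

lemma hh_facts (n : ℕ) (hn : 0 < n) (b : ℝ) (hb : 2 * (n : ℝ) - 1 ≤ b) :
    (n : ℝ) * 2 ^ (Nat.log 2 ⌊b / n⌋₊) ≤ b ∧ b < (n : ℝ) * (2 * 2 ^ (Nat.log 2 ⌊b / n⌋₊)) := by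
  have hn1 : (1 : ℝ) ≤ n := by exact_mod_cast hn
  have hn0 : (0 : ℝ) < n := by linarith
  have hbn : (1 : ℝ) ≤ b / n := by
    rw [le_div_iff₀ hn0]
    linarith
  have hfl : 1 ≤ ⌊b / n⌋₊ := by
    rw [Nat.one_le_floor_iff]
    exact hbn
  have h1 : 2 ^ (Nat.log 2 ⌊b / n⌋₊) ≤ ⌊b / n⌋₊ := Nat.pow_log_le_self 2 (by omega)
  have h2 : ⌊b / n⌋₊ < 2 ^ (Nat.log 2 ⌊b / n⌋₊ + 1) := Nat.lt_pow_succ_log_self (by norm_num) _
  constructor
  · have h3 : ((2 ^ (Nat.log 2 ⌊b / n⌋₊) : ℕ) : ℝ) ≤ (⌊b / n⌋₊ : ℝ) := by exact_mod_cast h1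
    have h4 : (⌊b / n⌋₊ : ℝ) ≤ b / n := Nat.floor_le (by positivity)
    have h5 : (2 : ℝ) ^ (Nat.log 2 ⌊b / n⌋₊) ≤ b / n := by
      push_cast at h3
      linarith
    rw [le_div_iff₀ hn0] at h5
    linarith
  · have h3 : b / n < ((2 ^ (Nat.log 2 ⌊b / n⌋₊ + 1) : ℕ) : ℝ) := by
      rw [← Nat.floor_lt (by positivity)]
      exact h2
    rw [div_lt_iff₀ hn0] at h3
    push_cast at h3
    rw [pow_succ] at h3
    linarith

lemma hh_le (n : ℕ) (hn : 0 < n) (b : ℝ) (hb : 2 * (n : ℝ) - 1 ≤ b) (m : ℕ) (hm : m < 2 * n) :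
    ((m * 2 ^ hh n b m : ℕ) : ℝ) ≤ b := by
  obtain ⟨h1, h2⟩ := hh_facts n hn b hb
  unfold hh
  split_ifs with h
  · push_cast
    exact h
  · push_cast
    have hm' : (m : ℝ) ≤ 2 * n - 1 := by
      have : (m : ℝ) + 1 ≤ 2 * n := by exact_mod_cast hm
      linarith
    rcases Nat.eq_zero_or_pos (Nat.log 2 ⌊b / n⌋₊) with h0 | h0
    · exfalso
      apply h
      rw [h0]
      simp only [pow_zero, mul_one]
      linarith
    · obtain ⟨j, hj⟩ := Nat.exists_eq_succ_of_ne_zero (Nat.pos_iff_ne_zero.mp h0)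
      rw [hj] at h1 ⊢
      simp only [Nat.succ_eq_add_one, Nat.add_sub_cancel]
      rw [Nat.succ_eq_add_one, pow_succ] at h1
      have hp : (0 : ℝ) < 2 ^ j := by positivity
      nlinarith

lemma pointwise (n : ℕ) (hn : 0 < n) (b : ℝ) (hb : 2 * (n : ℝ) - 1 ≤ b) :
    ∑ m ∈ Ico n (2 * n), (1 / 2 : ℝ) ^ hh n b m * (1 / ((m : ℝ) * (m + 1))) ≤ 1 / b := by
  obtain ⟨h1, h2⟩ := hh_facts n hn b hb
  set j := Nat.log 2 ⌊b / n⌋₊ with hj
  have hn1 : (1 : ℝ) ≤ n := by exact_mod_cast hn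
  have hb0 : 0 < b := by linarith
  have hp : (0 : ℝ) < 2 ^ j := by positivity
  set s : ℕ := ⌊b / 2 ^ j⌋₊ with hs
  have hs1 : n ≤ s := by
    rw [hs]
    apply Nat.le_floor
    rw [le_div_iff₀ hp]
    exact h1
  have hs2 : s < 2 * n := by
    rw [hs, Nat.floor_lt (by positivity), div_lt_iff₀ hp]
    push_cast
    linarith
  have hle : ∀ m : ℕ, m ≤ s → (m : ℝ) * 2 ^ j ≤ b := by
    intro m hm
    have : (m : ℝ) ≤ b / 2 ^ j := (Nat.cast_le.mpr hm).trans (Nat.floor_le (by positivity))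
    rwa [le_div_iff₀ hp] at this
  have hgt : ∀ m : ℕ, s < m → ¬ (m : ℝ) * 2 ^ j ≤ b := by
    intro m hm h
    have h3 : (m : ℝ) ≤ b / 2 ^ j := by rwa [le_div_iff₀ hp]
    have := Nat.le_floor h3
    omega
  rw [← Finset.sum_Ico_consecutive _ (show n ≤ s + 1 by omega) (show s + 1 ≤ 2 * n by omega)]
  have e1 : ∑ m ∈ Ico n (s + 1), (1 / 2 : ℝ) ^ hh n b m * (1 / ((m : ℝ) * (m + 1))) =
      (1 / 2 : ℝ) ^ j * ∑ m ∈ Ico n (s + 1), 1 / ((m : ℝ) * (m + 1)) := by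
    rw [mul_sum]
    apply sum_congr rfl
    intro m hm
    rw [mem_Ico] at hm
    unfold hh
    rw [if_pos (hle m (by omega))]
  have e2 : ∑ m ∈ Ico (s + 1) (2 * n), (1 / 2 : ℝ) ^ hh n b m * (1 / ((m : ℝ) * (m + 1))) ≤
      (2 * (1 / 2 : ℝ) ^ j) * ∑ m ∈ Ico (s + 1) (2 * n), 1 / ((m : ℝ) * (m + 1)) := by
    rw [mul_sum]
    apply sum_le_sum
    intro m hm
    rw [mem_Ico] at hm
    unfold hh
    rw [if_neg (hgt m (by omega))]
    have hpos : (0 : ℝ) ≤ 1 / ((m : ℝ) * (m + 1)) := by positivity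
    apply mul_le_mul_of_nonneg_right _ hpos
    rw [← hj]
    rcases Nat.eq_zero_or_pos j with h0 | h0
    · rw [h0]
      norm_num
    · obtain ⟨i, hi⟩ := Nat.exists_eq_succ_of_ne_zero (Nat.pos_iff_ne_zero.mp h0)
      rw [hi]
      simp only [Nat.succ_eq_add_one, Nat.add_sub_cancel]
      rw [pow_succ]
      linarith
  have e3 := telesc n hn (s + 1) (by omega)
  have e4 := telesc (s + 1) (by omega) (2 * n) (by omega)
  rw [e1, e3]
  rw [e4] at e2
  have hn0 : (n : ℝ) ≠ 0 := by positivity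
  have e5 : (1 / 2 : ℝ) ^ j * (1 / (n : ℝ) - 1 / ((s + 1 : ℕ) : ℝ)) +
      (2 * (1 / 2 : ℝ) ^ j) * (1 / ((s + 1 : ℕ) : ℝ) - 1 / ((2 * n : ℕ) : ℝ)) =
      (1 / 2 : ℝ) ^ j * (1 / ((s + 1 : ℕ) : ℝ)) := by
    push_cast
    field_simp
    ring
  have e6 : (1 / 2 : ℝ) ^ j * (1 / ((s + 1 : ℕ) : ℝ)) ≤ 1 / b := by
    have h3 : b / 2 ^ j < (s : ℝ) + 1 := Nat.lt_floor_add_one _
    rw [div_lt_iff₀ hp] at h3
    rw [one_div_pow, one_div_mul_one_div]
    apply one_div_le_one_div_of_le hb0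
    push_cast
    linarith
  linarith

/-- averaging over the bases -/
theorem averaging {ι : Type} (n : ℕ) (hn : 0 < n) (s : Finset ι) (b : ι → ℝ)
    (hb : ∀ i ∈ s, 2 * (n : ℝ) - 1 ≤ b i) (hD : ∑ i ∈ s, 1 / b i ≤ tau n) :
    ∃ m : ℕ, 0 < m ∧ ∃ h : ι → ℕ, (∀ i ∈ s, ((m * 2 ^ h i : ℕ) : ℝ) ≤ b i) ∧
      ∑ i ∈ s, (1 / 2 : ℝ) ^ h i ≤ m := by
  by_contra hcon
  push Not at hcon
  have h1 : ∀ m ∈ Ico n (2 * n), (m : ℝ) * (1 / ((m : ℝ) * (m + 1))) <
      (∑ i ∈ s, (1 / 2 : ℝ) ^ hh n (b i) m) * (1 / ((m : ℝ) * (m + 1))) := by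
    intro m hm
    rw [mem_Ico] at hm
    have hm0 : 0 < m := by omega
    have := hcon m hm0 (fun i => hh n (b i) m) (fun i hi => hh_le n hn (b i) (hb i hi) m hm.2)
    apply mul_lt_mul_of_pos_right this
    positivity
  have h2 : ∑ m ∈ Ico n (2 * n), (m : ℝ) * (1 / ((m : ℝ) * (m + 1))) = tau n := by
    unfold tau
    apply sum_congr rfl
    intro m hm
    rw [mem_Ico] at hm
    have hm0 : (m : ℝ) ≠ 0 := by
      have : 0 < m := by omega
      positivity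
    field_simp
  have h3 := sum_lt_sum_of_nonempty (nonempty_Ico.mpr (by omega : n < 2 * n)) h1
  rw [h2] at h3
  have h4 : ∑ m ∈ Ico n (2 * n), (∑ i ∈ s, (1 / 2 : ℝ) ^ hh n (b i) m) *
      (1 / ((m : ℝ) * (m + 1))) ≤ ∑ i ∈ s, 1 / b i := by
    simp only [sum_mul]
    rw [sum_comm]
    apply sum_le_sum
    intro i hi
    exact pointwise n hn (b i) (hb i hi)
  linarith

end Pool.Agent.H210R2.Pin
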