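import Pool.Agent.H210R2.PinB

/-! The criterion and its consequences. -/

set_option autoImplicit false

namespace Pool.Agent.H210R2.Pin

open Finset

/-- a real-valued instance is schedulable -/
def Sched {k : ℕ} (a : Fin k → ℝ) : Prop :=
  ∃ S : ℤ → Fin k, ∀ (i : Fin k) (l : ℕ) (m : ℤ),
    l ≤ ((Finset.Ico m (m + ⌈(l : ℝ) * a i⌉)).filter (fun t => S t = i)).card

/-- the criterion -/
theorem crit (k : ℕ) (hk : 0 < k) (a : Fin k → ℝ) (ha : ∀ i, 1 ≤ a i) (I : Finset (Fin k))
    (n : ℕ) (hn : 0 < n) (u : ℝ) (hu : 0 ≤ u) (hI : ∀ i ∈ I, 1 ≤ u * a i)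
    (hw : u * (I.card : ℝ) ≤ 1)
    (hJ : ∀ i, i ∉ I → 2 * (n : ℝ) - 1 ≤ (1 - u * (I.card : ℝ)) * a i)
    (hD : ∑ i ∈ Iᶜ, 1 / a i ≤ (1 - u * (I.card : ℝ)) * tau n) : Sched a := by
  classical
  set w : ℝ := u * (I.card : ℝ) with hwd
  have ha0 : ∀ i, 0 < a i := fun i => lt_of_lt_of_le one_pos (ha i)
  have hn1 : (1 : ℝ) ≤ n := by exact_mod_cast hn
  -- first part
  obtain ⟨S1, p1, hS1, hp1⟩ : ∃ (S1 : ℤ → Option (Fin k)) (p1 : Fin k → ℕ), IV S1 I p1 ∧
      ∀ i ∈ I, (p1 i : ℝ) ≤ w * a i := by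
    rcases Finset.eq_empty_or_nonempty I with h0 | h0
    · refine ⟨fun _ => none, fun _ => 0, ?_, ?_⟩
      · intro i hi
        rw [h0] at hi
        simp at hi
      · intro i hi
        rw [h0] at hi
        simp at hi
    · obtain ⟨S1, hS1⟩ := kraft_sched I.card (card_pos.mpr h0) (fun _ => 0) I (by simp)
      refine ⟨S1, _, hS1, ?_⟩
      intro i hi
      have h1 := hI i hi
      have h2 : (0 : ℝ) ≤ (I.card : ℝ) := Nat.cast_nonneg _
      simp only [pow_zero, mul_one]
      rw [hwd]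
      nlinarith
  -- second part
  obtain ⟨S2, p2, hS2, hp2⟩ : ∃ (S2 : ℤ → Option (Fin k)) (p2 : Fin k → ℕ), IV S2 Iᶜ p2 ∧
      ∀ i ∈ Iᶜ, (p2 i : ℝ) ≤ (1 - w) * a i := by
    have hD' : ∑ i ∈ Iᶜ, 1 / ((1 - w) * a i) ≤ tau n := by
      rcases Finset.eq_empty_or_nonempty Iᶜ with h0 | ⟨i0, hi0⟩
      · rw [h0, sum_empty]
        unfold tau
        positivity
      · have h1 := hJ i0 (mem_compl.mp hi0)
        have hpos : 0 < 1 - w := by
          by_contra hneg
          push Not at hneg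
          have := ha0 i0
          nlinarith
        have e : ∑ i ∈ Iᶜ, 1 / ((1 - w) * a i) = (∑ i ∈ Iᶜ, 1 / a i) / (1 - w) := by
          rw [sum_div]
          apply sum_congr rfl
          intro i _
          have := ha0 i
          field_simp
        rw [e, div_le_iff₀ hpos]
        linarith
    obtain ⟨m, hm, h, hh1, hh2⟩ := averaging n hn Iᶜ (fun i => (1 - w) * a i)
      (fun i hi => hJ i (mem_compl.mp hi)) hD'
    obtain ⟨S2, hS2⟩ := kraft_sched m hm h Iᶜ hh2
    exact ⟨S2, _, hS2, hh1⟩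
  have hw0 : 0 ≤ w := mul_nonneg hu (Nat.cast_nonneg _)
  obtain ⟨S, hS⟩ := combine I Iᶜ p1 p2 S1 S2 hS1 hS2 a w hw0 hw (fun i => (ha0 i).le) hp1 hp2
  refine ⟨fun t => (S t).getD ⟨0, hk⟩, ?_⟩
  intro i l m
  have hi : i ∈ I ∨ i ∈ Iᶜ := by
    rw [mem_compl]
    exact em _
  refine (hS i hi l m).trans (card_le_card ?_)
  intro t ht
  rw [mem_filter] at ht ⊢
  refine ⟨ht.1, ?_⟩
  simp only
  rw [ht.2]
  rfl

section cases

variable {k : ℕ} (hk : 0 < k) (a : Fin k → ℝ) (ha : ∀ i, 1 ≤ a i)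

include hk ha

lemma crit0 (n : ℕ) (hn : 0 < n) (h1 : ∀ i, 2 * (n : ℝ) - 1 ≤ a i) (hD : ∑ i, 1 / a i ≤ tau n) :
    Sched a := by
  apply crit k hk a ha ∅ n hn 0 le_rfl (by simp) (by simp)
  · intro i _
    simpa using h1 i
  · simpa using hD

lemma crit1 (j : Fin k) (n : ℕ) (hn : 0 < n)
    (h1 : ∀ i, i ≠ j → 2 * (n : ℝ) - 1 ≤ (1 - 1 / a j) * a i)
    (hD : ∑ i, 1 / a i ≤ 1 / a j + (1 - 1 / a j) * tau n) : Sched a := by
  have haj : 0 < a j := lt_of_lt_of_le one_pos (ha j)
  apply crit k hk a ha {j} n hn (1 / a j) (by positivity)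
  · intro i hi
    rw [mem_singleton] at hi
    subst hi
    field_simp
    exact le_rfl
  · rw [card_singleton]
    simp only [Nat.cast_one, mul_one]
    rw [div_le_one haj]
    exact ha j
  · intro i hi
    rw [card_singleton]
    simp only [Nat.cast_one, mul_one]
    exact h1 i (by simpa using hi)
  · rw [card_singleton]
    simp only [Nat.cast_one, mul_one]
    have e := Finset.sum_add_sum_compl ({j} : Finset (Fin k)) (fun i => 1 / a i)
    rw [sum_singleton] at e
    linarith

lemma crit2 (j1 j2 : Fin k) (hne : j1 ≠ j2) (hle : a j1 ≤ a j2) (n : ℕ) (hn : 0 < n)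
    (hw : 2 * (1 / a j1) ≤ 1)
    (h1 : ∀ i, i ≠ j1 → i ≠ j2 → 2 * (n : ℝ) - 1 ≤ (1 - 2 * (1 / a j1)) * a i)
    (hD : ∑ i, 1 / a i ≤ 1 / a j1 + 1 / a j2 + (1 - 2 * (1 / a j1)) * tau n) : Sched a := by
  have haj : 0 < a j1 := lt_of_lt_of_le one_pos (ha j1)
  have hc : (({j1, j2} : Finset (Fin k)).card : ℝ) = 2 := by
    rw [card_pair hne]
    norm_num
  apply crit k hk a ha {j1, j2} n hn (1 / a j1) (by positivity)
  · intro i hi
    rw [mem_insert, mem_singleton] at hi
    have : a j1 ≤ a i := by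
      rcases hi with rfl | rfl
      · exact le_rfl
      · exact hle
    rw [one_div, inv_mul_eq_div, le_div_iff₀ haj]
    linarith
  · rw [hc]
    linarith
  · intro i hi
    rw [hc]
    rw [mem_insert, mem_singleton, not_or] at hi
    have := h1 i hi.1 hi.2
    linarith
  · rw [hc]
    have e := Finset.sum_add_sum_compl ({j1, j2} : Finset (Fin k)) (fun i => 1 / a i)
    rw [sum_pair hne] at e
    linarith

/-- one large task -/
theorem one_task (j : Fin k) (hD : ∑ i, 1 / a i ≤ 1 / 2 + 1 / (2 * a j)) : Sched a := by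
  have haj : 0 < a j := lt_of_lt_of_le one_pos (ha j)
  have hu1 : 1 / a j ≤ 1 := by
    rw [div_le_one haj]
    exact ha j
  have e2 : 1 / (2 * a j) = (1 / a j) / 2 := by
    field_simp
  rw [e2] at hD
  have ht : tau 1 = 1 / 2 := by
    unfold tau
    norm_num [Finset.sum_Ico_succ_top]
  apply crit1 hk a ha j 1 one_pos
  · intro i hij
    have hai : 0 < a i := lt_of_lt_of_le one_pos (ha i)
    have h3 : 1 / a j + 1 / a i ≤ ∑ i, 1 / a i := by
      rw [← sum_pair (Ne.symm hij) (f := fun i => 1 / a i)]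
      apply sum_le_sum_of_subset_of_nonneg (subset_univ _)
      intro x _ _
      have := ha x
      positivity
    have h4 : 1 / a i ≤ 1 - 1 / a j := by linarith
    rw [div_le_iff₀ hai] at h4
    push_cast
    linarith
  · rw [ht]
    linarith

/-- two thirds -/
theorem two_thirds (hD : ∑ i, 1 / a i ≤ 2 / 3) : Sched a := by
  haveI : Nonempty (Fin k) := ⟨⟨0, hk⟩⟩
  obtain ⟨j1, hj1⟩ := Finite.exists_min a
  have hpos : ∀ i, 0 < a i := fun i => lt_of_lt_of_le one_pos (ha i)
  set u : ℝ := 1 / a j1 with hu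
  have hu0 : 0 < u := by
    have := hpos j1
    positivity
  have hdu : ∀ i, 1 / a i ≤ u := fun i => one_div_le_one_div_of_le (hpos j1) (hj1 i)
  have hau : ∀ i, 1 ≤ u * a i := by
    intro i
    have := hdu i
    rwa [div_le_iff₀ (hpos i)] at this
  have ht1 : tau 1 = 1 / 2 := by
    unfold tau
    norm_num [Finset.sum_Ico_succ_top]
  have ht2 : tau 2 = 7 / 12 := by
    unfold tau
    norm_num [Finset.sum_Ico_succ_top]
  have ht3 : tau 3 = 37 / 60 := by
    unfold tau
    norm_num [Finset.sum_Ico_succ_top]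
  have ht4 : tau 4 = 533 / 840 := by
    unfold tau
    norm_num [Finset.sum_Ico_succ_top]
  have ht5 : tau 5 = 1627 / 2520 := by
    unfold tau
    norm_num [Finset.sum_Ico_succ_top]
  have ht6 : tau 6 = 18107 / 27720 := by
    unfold tau
    norm_num [Finset.sum_Ico_succ_top]
  have ht10 : (2 / 3 : ℝ) ≤ tau 10 := by
    unfold tau
    norm_num [Finset.sum_Ico_succ_top]
  by_cases hc0 : 1 / 3 ≤ u
  · apply one_task hk a ha j1
    have e2 : 1 / (2 * a j1) = u / 2 := by
      rw [hu]
      field_simp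
    rw [e2]
    linarith
  push Not at hc0
  -- the second task
  by_cases hJ : (({j1} : Finset (Fin k))ᶜ).Nonempty
  swap
  · apply one_task hk a ha j1
    rw [not_nonempty_iff_eq_empty] at hJ
    have e := Finset.sum_add_sum_compl ({j1} : Finset (Fin k)) (fun i => 1 / a i)
    rw [hJ, sum_empty, sum_singleton] at e
    have e2 : 1 / (2 * a j1) = u / 2 := by
      rw [hu]
      field_simp
    rw [e2, ← e]
    simp only [← hu]
    linarith
  obtain ⟨j2, hj2, hmin⟩ := Finset.exists_min_image _ a hJ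
  rw [mem_compl, mem_singleton] at hj2
  set d : ℝ := 1 / a j2 with hd
  have hdd : d ≤ u := hdu j2
  have hd0 : 0 < d := by
    have := hpos j2
    positivity
  have hothers : ∀ i, i ≠ j1 → 1 ≤ d * a i := by
    intro i hi
    have h1 : a j2 ≤ a i := hmin i (by simpa using hi)
    have h2 : 1 / a i ≤ d := one_div_le_one_div_of_le (hpos j2) h1
    rwa [div_le_iff₀ (hpos i)] at h2
  -- the three forms of the criterion
  have C1 : ∀ n : ℕ, 0 < n → (2 * (n : ℝ) - 1) * d ≤ 1 - u → 2 / 3 ≤ u + (1 - u) * tau n →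
      Sched a := by
    intro n hn h1 h2
    apply crit1 hk a ha j1 n hn
    · intro i hi
      have h3 := hothers i hi
      have h4 : (0 : ℝ) ≤ 2 * (n : ℝ) - 1 := by
        have : (1 : ℝ) ≤ n := by exact_mod_cast hn
        linarith
      have h5 := mul_le_mul_of_nonneg_right h1 (hpos i).le
      have h6 := mul_le_mul_of_nonneg_left h3 h4
      rw [← hu]
      linarith
    · rw [← hu]
      linarith
  have C2 : ∀ n : ℕ, 0 < n → (2 * (n : ℝ) - 1) * d ≤ 1 - 2 * u →
      2 / 3 ≤ u + d + (1 - 2 * u) * tau n → Sched a := by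
    intro n hn h1 h2
    have h4 : (0 : ℝ) ≤ 2 * (n : ℝ) - 1 := by
      have : (1 : ℝ) ≤ n := by exact_mod_cast hn
      linarith
    apply crit2 hk a ha j1 j2 (Ne.symm hj2) (hj1 j2) n hn
    · rw [← hu]
      linarith
    · intro i hi _
      have h3 := hothers i hi
      have h5 := mul_le_mul_of_nonneg_right h1 (hpos i).le
      have h6 := mul_le_mul_of_nonneg_left h3 h4
      rw [← hu]
      linarith
    · rw [← hu, ← hd]
      linarith
  by_cases hc1 : 1 / 5 ≤ u
  · by_cases h : 3 * d ≤ 1 - u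
    · apply C1 2 (by norm_num)
      · push_cast
        linarith
      · rw [ht2]
        linarith
    · push Not at h
      apply C2 1 (by norm_num)
      · push_cast
        linarith
      · rw [ht1]
        linarith
  push Not at hc1
  by_cases hc2 : 1 / 7 ≤ u
  · by_cases h : 5 * d ≤ 1 - u
    · apply C1 3 (by norm_num)
      · push_cast
        linarith
      · rw [ht3]
        linarith
    · push Not at h
      apply C2 2 (by norm_num)
      · push_cast
        linarith
      · rw [ht2]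
        linarith
  push Not at hc2
  by_cases hc3 : 1 / 10 ≤ u
  · by_cases h : 7 * d ≤ 1 - u
    · apply C1 4 (by norm_num)
      · push_cast
        linarith
      · rw [ht4]
        linarith
    · push Not at h
      apply C2 3 (by norm_num)
      · push_cast
        linarith
      · rw [ht3]
        linarith
  push Not at hc3
  by_cases hc4 : 1 / 15 ≤ u
  · apply C1 5 (by norm_num)
    · push_cast
      linarith
    · rw [ht5]
      linarith
  push Not at hc4
  by_cases hc5 : 1 / 19 ≤ u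
  · apply C1 6 (by norm_num)
    · push_cast
      linarith
    · rw [ht6]
      linarith
  push Not at hc5
  apply crit0 hk a ha 10 (by norm_num)
  · intro i
    have h3 := hau i
    have h4 := hpos i
    push_cast
    nlinarith
  · linarith

end cases

end Pool.Agent.H210R2.Pin
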