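import Pool.Agent.H210R2.PinC

/-! Further cases of the density `5/6`. -/

set_option autoImplicit false

namespace Pool.Agent.H210R2.Pin

open Finset

section cases

variable {k : ℕ} (hk : 0 < k) (a : Fin k → ℝ) (ha : ∀ i, 1 ≤ a i)

include hk ha

lemma crit1' (j : Fin k) (p2 : Fin k → ℕ) (S2 : ℤ → Option (Fin k)) (hS2 : IV S2 ({j}ᶜ) p2)
    (hp2 : ∀ i ∈ (({j} : Finset (Fin k))ᶜ), (p2 i : ℝ) ≤ (1 - 1 / a j) * a i) : Sched a := by
  classical
  have haj : 0 < a j := lt_of_lt_of_le one_pos (ha j)
  have hS1 : IV (fun _ => some j) ({j} : Finset (Fin k)) (fun _ => 1) := by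
    intro i hi m
    rw [mem_singleton] at hi
    exact ⟨m, le_rfl, by push_cast; linarith, by rw [hi]⟩
  obtain ⟨S, hS⟩ := combine ({j} : Finset (Fin k)) ({j}ᶜ) (fun _ => 1) p2 (fun _ => some j) S2
    hS1 hS2 a (1 / a j) (by positivity) (by rw [div_le_one haj]; exact ha j)
    (fun i => by linarith [ha i]) (by
      intro i hi
      rw [mem_singleton] at hi
      subst hi
      push_cast
      field_simp
      exact le_rfl) hp2
  refine ⟨fun t => (S t).getD ⟨0, hk⟩, ?_⟩
  intro i l m
  have hi : i ∈ ({j} : Finset (Fin k)) ∨ i ∈ (({j} : Finset (Fin k))ᶜ) := by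
    rw [mem_compl]
    exact em _
  refine (hS i hi l m).trans (card_le_card ?_)
  intro t ht
  rw [mem_filter] at ht ⊢
  refine ⟨ht.1, ?_⟩
  simp only
  rw [ht.2]
  rfl

/-- smallest period at most `5/3`, all other periods at least `2` in the complement -/
theorem five_thirds (j : Fin k) (hj : a j ≤ 5 / 3) (h2 : ∀ i, i ≠ j → 2 ≤ (1 - 1 / a j) * a i)
    (hD : ∑ i, 1 / a i ≤ 5 / 6) : Sched a := by
  classical
  have haj : 0 < a j := lt_of_lt_of_le one_pos (ha j)
  have hpos : ∀ i, 0 < a i := fun i => lt_of_lt_of_le one_pos (ha i)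
  set u : ℝ := 1 / a j with hu
  have hu3 : 3 / 5 ≤ u := by
    rw [hu, le_div_iff₀ haj]
    linarith
  have ht2 : tau 2 = 7 / 12 := by
    unfold tau
    norm_num [Finset.sum_Ico_succ_top]
  by_cases h3 : ∀ i, i ≠ j → 3 ≤ (1 - u) * a i
  · apply crit1 hk a ha j 2 (by norm_num)
    · intro i hi
      have := h3 i hi
      rw [← hu]
      push_cast
      linarith
    · rw [← hu, ht2]
      linarith
  · push Not at h3
    obtain ⟨j2, hj2, h3⟩ := h3
    have h22 := h2 j2 hj2
    have hv : 0 < 1 - u := by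
      by_contra hneg
      push Not at hneg
      have := hpos j2
      nlinarith
    set h : Fin k → ℕ := fun i => if i = j2 then 0 else Nat.log 2 ⌊(1 - u) * a i / (1 : ℕ)⌋₊ - 1 with hh
    have hfac : ∀ i, i ≠ j → i ≠ j2 → (2 : ℝ) * 2 ^ h i ≤ (1 - u) * a i ∧
        (1 / 2 : ℝ) ^ h i ≤ 4 * (1 / ((1 - u) * a i)) := by
      intro i hi1 hi2
      have hb := h2 i hi1
      obtain ⟨f1, f2⟩ := hh_facts 1 one_pos ((1 - u) * a i) (by push_cast; linarith)
      have hL : 0 < Nat.log 2 ⌊(1 - u) * a i / (1 : ℕ)⌋₊ := by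
        rcases Nat.eq_zero_or_pos (Nat.log 2 ⌊(1 - u) * a i / (1 : ℕ)⌋₊) with h0 | h0
        · rw [h0] at f2
          push_cast at f2
          norm_num at f2
          linarith
        · exact h0
      obtain ⟨t, ht⟩ := Nat.exists_eq_succ_of_ne_zero (Nat.pos_iff_ne_zero.mp hL)
      have hht : h i = t := by
        rw [hh]
        simp only
        rw [if_neg hi2, ht]
        rfl
      rw [hht]
      rw [ht, Nat.succ_eq_add_one, pow_succ] at f1 f2
      push_cast at f1 f2
      have hp : (0 : ℝ) < 2 ^ t := by positivity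
      have hb0 : 0 < (1 - u) * a i := by linarith
      refine ⟨by linarith, ?_⟩
      rw [one_div_pow, mul_one_div, div_le_div_iff₀ hp hb0]
      linarith
    have hsum : ∑ i ∈ (({j} : Finset (Fin k))ᶜ), (1 / 2 : ℝ) ^ h i ≤ (2 : ℕ) := by
      have hmem : j2 ∈ (({j} : Finset (Fin k))ᶜ) := by simpa using hj2
      rw [← add_sum_erase _ _ hmem]
      have e1 : (1 / 2 : ℝ) ^ h j2 = 1 := by
        rw [hh]
        simp
      have e2 : ∑ i ∈ (({j} : Finset (Fin k))ᶜ).erase j2, (1 / 2 : ℝ) ^ h i ≤
          ∑ i ∈ (({j} : Finset (Fin k))ᶜ).erase j2, 4 * (1 / ((1 - u) * a i)) := by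
        apply sum_le_sum
        intro i hi
        rw [mem_erase, mem_compl, mem_singleton] at hi
        exact (hfac i hi.2 hi.1).2
      have e3 : ∑ i ∈ (({j} : Finset (Fin k))ᶜ).erase j2, 4 * (1 / ((1 - u) * a i)) =
          4 * ((∑ i ∈ (({j} : Finset (Fin k))ᶜ).erase j2, 1 / a i) / (1 - u)) := by
        rw [← mul_sum, sum_div]
        congr 1
        apply sum_congr rfl
        intro i _
        have := hpos i
        field_simp
      have e4 : ∑ i ∈ (({j} : Finset (Fin k))ᶜ).erase j2, 1 / a i = ∑ i, 1 / a i - u - 1 / a j2 := by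
        have g1 := Finset.sum_add_sum_compl ({j} : Finset (Fin k)) (fun i => 1 / a i)
        rw [sum_singleton] at g1
        have g2 := add_sum_erase (({j} : Finset (Fin k))ᶜ) (fun i => 1 / a i) hmem
        linarith
      have e5 : (1 - u) / 3 < 1 / a j2 := by
        rw [div_lt_div_iff₀ (by norm_num) (hpos j2)]
        linarith
      have e6 : (∑ i ∈ (({j} : Finset (Fin k))ᶜ).erase j2, 1 / a i) / (1 - u) ≤ 1 / 4 := by
        rw [div_le_iff₀ hv, e4]
        linarith
      rw [e1]
      push_cast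
      rw [e3] at e2
      linarith
    obtain ⟨S2, hS2⟩ := kraft_sched 2 (by norm_num) h (({j} : Finset (Fin k))ᶜ) hsum
    apply crit1' hk a ha j _ S2 hS2
    intro i hi
    rw [mem_compl, mem_singleton] at hi
    rw [← hu]
    by_cases hij : i = j2
    · subst hij
      have e0 : h i = 0 := by
        rw [hh]
        simp
      simp only [e0, pow_zero, mul_one]
      push_cast
      exact h22
    · have := (hfac i hi hij).1
      push_cast
      exact this

/-- one period at most `2`, all other periods at least `40` -/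
theorem two_forty (j : Fin k) (hj : a j ≤ 2) (h2 : ∀ i, i ≠ j → 40 ≤ a i)
    (hD : ∑ i, 1 / a i ≤ 5 / 6) : Sched a := by
  have haj : 0 < a j := lt_of_lt_of_le one_pos (ha j)
  set u : ℝ := 1 / a j with hu
  have hu3 : 1 / 2 ≤ u := by
    rw [hu, le_div_iff₀ haj]
    linarith
  have hu1 : u ≤ 1 := by
    rw [hu, div_le_one haj]
    exact ha j
  have ht4 : tau 4 = 533 / 840 := by
    unfold tau
    norm_num [Finset.sum_Ico_succ_top]
  have ht9 : (666 / 1000 : ℝ) ≤ tau 9 := by
    unfold tau
    norm_num [Finset.sum_Ico_succ_top]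
  have ht10 : (2 / 3 : ℝ) ≤ tau 10 := by
    unfold tau
    norm_num [Finset.sum_Ico_succ_top]
  by_cases h1 : 2 / 3 ≤ u
  · apply one_task hk a ha j
    have e2 : 1 / (2 * a j) = u / 2 := by
      rw [hu]
      field_simp
    rw [e2]
    linarith
  push Not at h1
  by_cases h3 : 55 / 100 ≤ u
  · apply crit1 hk a ha j 4 (by norm_num)
    · intro i hi
      have := h2 i hi
      rw [← hu]
      push_cast
      nlinarith
    · rw [← hu, ht4]
      linarith
  push Not at h3
  by_cases h4 : 505 / 1000 ≤ u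
  · apply crit1 hk a ha j 9 (by norm_num)
    · intro i hi
      have := h2 i hi
      rw [← hu]
      push_cast
      nlinarith
    · rw [← hu]
      nlinarith
  push Not at h4
  apply crit1 hk a ha j 10 (by norm_num)
  · intro i hi
    have := h2 i hi
    rw [← hu]
    push_cast
    nlinarith
  · rw [← hu]
    nlinarith

end cases

end Pool.Agent.H210R2.Pin
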