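import Pool.Agent.H210R2.PinD

/-! The density `5/6` for a period at most `5/3`. -/

set_option autoImplicit false

namespace Pool.Agent.H210R2.Pin

open Finset

/-- Kraft packing of tasks with `q ≤ b i`: `q 2^(h i) ≤ b i` and `2^(-h i) ≤ 2 q / b i`. -/
lemma exponents {ι : Type} [DecidableEq ι] (s : Finset ι) (b : ι → ℝ) (q : ℕ) (hq : 0 < q)
    (hb : ∀ i ∈ s, (q : ℝ) ≤ b i) (hs : ∑ i ∈ s, 1 / b i ≤ 1 / (2 * (q : ℝ))) :
    ∃ (p : ι → ℕ) (S : ℤ → Option ι), IV S s p ∧ ∀ i ∈ s, ((q * p i : ℕ) : ℝ) ≤ b i := by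
  have hq0 : (0 : ℝ) < q := by exact_mod_cast hq
  have hfac : ∀ i ∈ s, ∃ h : ℕ, (q : ℝ) * 2 ^ h ≤ b i ∧ (1 / 2 : ℝ) ^ h ≤ 2 * (q : ℝ) * (1 / b i) := by
    intro i hi
    have hbi := hb i hi
    have hbi0 : 0 < b i := lt_of_lt_of_le hq0 hbi
    have h1 : (1 : ℝ) ≤ b i / q := by
      rw [le_div_iff₀ hq0]
      linarith
    obtain ⟨f1, f2⟩ := hh_facts 1 one_pos (b i / q) (by push_cast; linarith)
    refine ⟨Nat.log 2 ⌊b i / q / (1 : ℕ)⌋₊, ?_, ?_⟩
    · push_cast at f1 ⊢
      rw [one_mul, le_div_iff₀ hq0] at f1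
      linarith
    · set L := Nat.log 2 ⌊b i / q / (1 : ℕ)⌋₊ with hL
      have hp : (0 : ℝ) < 2 ^ L := by positivity
      push_cast at f2
      rw [one_mul, div_lt_iff₀ hq0] at f2
      rw [one_div_pow, mul_one_div, div_le_div_iff₀ hp hbi0]
      linarith
  choose! h hh using hfac
  obtain ⟨S, hS⟩ := kraft_sched 1 one_pos h s (by
    have h1 : ∑ i ∈ s, (1 / 2 : ℝ) ^ h i ≤ ∑ i ∈ s, 2 * (q : ℝ) * (1 / b i) :=
      sum_le_sum fun i hi => (hh i hi).2
    rw [← mul_sum] at h1
    have h2 : 2 * (q : ℝ) * ∑ i ∈ s, 1 / b i ≤ 2 * (q : ℝ) * (1 / (2 * (q : ℝ))) :=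
      mul_le_mul_of_nonneg_left hs (by positivity)
    have h3 : 2 * (q : ℝ) * (1 / (2 * (q : ℝ))) = 1 := by
      field_simp
    push_cast
    linarith)
  refine ⟨fun i => 1 * 2 ^ h i, S, hS, ?_⟩
  intro i hi
  push_cast
  have := (hh i hi).1
  linarith

/-- first task in a Beatty sequence, the rest arbitrary in the complement -/
theorem combineG {ι : Type} [DecidableEq ι] (j : ι) (S2 : ℤ → Option ι) (aj : ℝ) (haj : 1 ≤ aj) :
    ∃ S : ℤ → Option ι, (∀ (l : ℕ) (m : ℤ),
      l ≤ ((Ico m (m + ⌈(l : ℝ) * aj⌉)).filter (fun t => S t = some j)).card) ∧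
      ∀ i : ι, ∀ (m : ℤ) (L : ℕ), ∃ x y : ℤ, x + ⌊(L : ℝ) * (1 - 1 / aj)⌋ ≤ y ∧
        ((Ico x y).filter (fun t => S2 t = some i)).card ≤
          ((Ico m (m + L)).filter (fun t => S t = some i)).card := by
  set w : ℝ := 1 / aj with hwd
  have haj0 : 0 < aj := by linarith
  have hw0 : 0 ≤ w := by positivity
  have hw1 : w ≤ 1 := by rw [hwd, div_le_one haj0]; exact haj
  set F : ℤ → ℤ := fun t => ⌊(t : ℝ) * w⌋ with hFd
  have hF : ∀ t, F (t + 1) = F t ∨ F (t + 1) = F t + 1 := by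
    intro t
    have e : (((t + 1 : ℤ)) : ℝ) * w = (t : ℝ) * w + w := by push_cast; ring
    have b1 : F t ≤ F (t + 1) := by
      simp only [hFd]
      rw [e]
      exact Int.floor_le_floor (by linarith)
    have b2 : F (t + 1) ≤ F t + 1 := by
      simp only [hFd]
      rw [e, ← Int.floor_add_one]
      exact Int.floor_le_floor (by linarith)
    omega
  set G : ℤ → ℤ := fun t => t - F t with hGd
  have hG : ∀ t, G (t + 1) = G t ∨ G (t + 1) = G t + 1 := by
    intro t
    simp only [hGd]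
    rcases hF t with h | h <;> omega
  refine ⟨fun t => if F (t + 1) = F t + 1 then some j else S2 (G t), ?_, ?_⟩
  · intro l m
    have hLnn : (0 : ℝ) ≤ (l : ℝ) * aj := by positivity
    obtain ⟨L, hL⟩ := Int.eq_ofNat_of_zero_le (Int.ceil_nonneg hLnn)
    have hLge : (l : ℝ) * aj ≤ (L : ℝ) := by
      have := Int.le_ceil ((l : ℝ) * aj)
      rw [hL] at this
      exact_mod_cast this
    rw [hL]
    have hcount := step_count hF (fun _ => True) m L
    have hge : l ≤ ((Ico (F m) (F (m + L))).filter (fun _ => True)).card := by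
      rw [filter_true, Int.card_Ico]
      have h3 : F m + l ≤ F (m + L) := by
        have h3' : (((F m + l : ℤ)) : ℝ) ≤ (((m + L : ℤ)) : ℝ) * w := by
          push_cast
          have h4 : ((F m : ℤ) : ℝ) ≤ (m : ℝ) * w := Int.floor_le _
          have h6 : ((l : ℝ) * aj) * w ≤ (L : ℝ) * w := mul_le_mul_of_nonneg_right hLge hw0
          have h7 : aj * w = 1 := by rw [hwd]; field_simp
          have h8 : ((l : ℝ) * aj) * w = l := by rw [mul_assoc, h7, mul_one]
          linarith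
        exact Int.le_floor.mpr h3'
      omega
    rw [← hcount] at hge
    refine hge.trans (card_le_card ?_)
    intro t ht
    rw [mem_filter] at ht ⊢
    refine ⟨ht.1, ?_⟩
    simp only
    rw [if_pos ht.2.1]
  · intro i m L
    refine ⟨G m, G (m + L), ?_, ?_⟩
    · have h3 : F (m + L) < F m + 1 + L - ⌊(L : ℝ) * (1 - w)⌋ := by
        simp only [hFd]
        rw [Int.floor_lt]
        push_cast
        have h4 : (m : ℝ) * w < ((F m : ℤ) : ℝ) + 1 := Int.lt_floor_add_one _
        have h5 : ((⌊(L : ℝ) * (1 - w)⌋ : ℤ) : ℝ) ≤ (L : ℝ) * (1 - w) := Int.floor_le _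
        have h7 : ((F m : ℤ) : ℝ) = (⌊(m : ℝ) * w⌋ : ℝ) := rfl
        rw [← h7]
        linarith
      simp only [hGd]
      omega
    · rw [← step_count hG (fun x => S2 x = some i) m L]
      apply card_le_card
      intro t ht
      rw [mem_filter] at ht ⊢
      refine ⟨ht.1, ?_⟩
      simp only
      rw [if_neg]
      · exact ht.2.2
      · intro h
        have h8 := ht.2.1
        simp only [hGd] at h8
        omega

/-- counting by a step function -/
lemma step_card {F : ℤ → ℤ} (hF : ∀ t, F (t + 1) = F t ∨ F (t + 1) = F t + 1)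
    (R : ℤ → Prop) [DecidablePred R] (hR : ∀ t, F (t + 1) = F t + 1 → R t) (x y : ℤ)
    (hxy : x ≤ y) : F y - F x ≤ ((Ico x y).filter R).card := by
  obtain ⟨L, hL⟩ := Int.eq_ofNat_of_zero_le (sub_nonneg.mpr hxy)
  have e : y = x + L := by
    have : y - x = (L : ℤ) := hL
    linarith
  subst e
  have hcount := step_count hF (fun _ => True) x L
  have h1 : ((Ico x (x + L)).filter (fun t => F (t + 1) = F t + 1 ∧ True)).card ≤
      ((Ico x (x + L)).filter R).card := by
    apply card_le_card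
    intro t ht
    rw [mem_filter] at ht ⊢
    exact ⟨ht.1, hR t ht.2.1⟩
  rw [hcount, filter_true, Int.card_Ico] at h1
  have h2 := step_mono hF x L
  omega

end Pool.Agent.H210R2.Pin
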