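import Pool.Agent.H210R2.PinE

/-! The density `5/6` for a period at most `5/3`: two large tasks. -/

set_option autoImplicit false

namespace Pool.Agent.H210R2.Pin

open Finset

/-! ### two of three slots -/

/-- two of three slots for the task `j`, one for the others -/
def S23 {ι : Type} (j : ι) (S3 : ℤ → Option ι) (x : ℤ) : Option ι :=
  if x % 3 = 2 then S3 (x / 3) else some j

lemma S23_IV {ι : Type} (j : ι) (S3 : ℤ → Option ι) (s : Finset ι) (p : ι → ℕ) (h : IV S3 s p) :
    IV (S23 j S3) s (fun i => 3 * p i) := by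
  intro i hi m
  obtain ⟨q, h1, h2, h3⟩ := h i hi (m / 3)
  refine ⟨3 * q + 2, by omega, by push_cast; omega, ?_⟩
  unfold S23
  rw [if_pos (by omega)]
  have : (3 * q + 2) / 3 = q := by omega
  rw [this]
  exact h3

/-- counts of the task `j` in two of three slots -/
def T3 (t : ℤ) : ℤ := 2 * (t / 3) + t % 3

lemma T3_step (t : ℤ) : T3 (t + 1) = T3 t ∨ T3 (t + 1) = T3 t + 1 := by
  unfold T3
  omega

lemma T3_pos (t : ℤ) (h : T3 (t + 1) = T3 t + 1) : t % 3 ≠ 2 := by
  unfold T3 at h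
  omega

lemma T3_dens (x y : ℤ) : 2 * (y - x) ≤ 3 * (T3 y - T3 x) + 2 := by
  unfold T3
  omega

lemma S23_count {ι : Type} [DecidableEq ι] (j : ι) (S3 : ℤ → Option ι) (x y : ℤ) (hxy : x ≤ y)
    (l : ℕ) (hl : 3 * (l : ℤ) ≤ 2 * (y - x)) :
    l ≤ ((Ico x y).filter (fun t => S23 j S3 t = some j)).card := by
  have h := step_card T3_step (fun t => S23 j S3 t = some j) (by
    intro t ht
    have := T3_pos t ht
    unfold S23
    rw [if_neg this]) x y hxy
  have hd := T3_dens x y
  omega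

/-! ### a pattern of period 12 -/

/-- the pattern `R 1 2 1 1 2 1 1 1 2 1 1` -/
def S12 {ι : Type} (j1 j2 : ι) (S3 : ℤ → Option ι) (x : ℤ) : Option ι :=
  if x % 12 = 0 then S3 (x / 12) else
    if x % 12 = 2 ∨ x % 12 = 5 ∨ x % 12 = 9 then some j2 else some j1

lemma S12_IV {ι : Type} (j1 j2 : ι) (S3 : ℤ → Option ι) (s : Finset ι) (p : ι → ℕ)
    (h : IV S3 s p) : IV (S12 j1 j2 S3) s (fun i => 12 * p i) := by
  intro i hi m
  obtain ⟨q, h1, h2, h3⟩ := h i hi ((m + 11) / 12)
  refine ⟨12 * q, by omega, by push_cast; omega, ?_⟩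
  unfold S12
  rw [if_pos (by omega)]
  have : (12 * q) / 12 = q := by omega
  rw [this]
  exact h3

/-- counts of the first task -/
def T1 (t : ℤ) : ℤ := 8 * (t / 12) + (if t % 12 ≤ 1 then 0 else if t % 12 ≤ 3 then 1 else
  if t % 12 ≤ 4 then 2 else if t % 12 ≤ 6 then 3 else if t % 12 ≤ 7 then 4 else
  if t % 12 ≤ 8 then 5 else if t % 12 ≤ 10 then 6 else 7)

/-- counts of the second task -/
def T2 (t : ℤ) : ℤ := 3 * (t / 12) + (if t % 12 ≤ 2 then 0 else if t % 12 ≤ 5 then 1 else
  if t % 12 ≤ 9 then 2 else 3)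

lemma T1_step (t : ℤ) : T1 (t + 1) = T1 t ∨ T1 (t + 1) = T1 t + 1 := by
  unfold T1
  split_ifs <;> omega

lemma T2_step (t : ℤ) : T2 (t + 1) = T2 t ∨ T2 (t + 1) = T2 t + 1 := by
  unfold T2
  split_ifs <;> omega

lemma T1_pos (t : ℤ) (h : T1 (t + 1) = T1 t + 1) : t % 12 ≠ 0 ∧ t % 12 ≠ 2 ∧ t % 12 ≠ 5 ∧
    t % 12 ≠ 9 := by
  unfold T1 at h
  refine ⟨?_, ?_, ?_, ?_⟩ <;> intro h0 <;> split_ifs at h <;> omega

lemma T2_pos (t : ℤ) (h : T2 (t + 1) = T2 t + 1) : t % 12 ≠ 0 ∧ (t % 12 = 2 ∨ t % 12 = 5 ∨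
    t % 12 = 9) := by
  unfold T2 at h
  split_ifs at h <;> omega

lemma T1_dens (x y : ℤ) (hxy : x ≤ y) : 19 * (y - x) ≤ 30 * (T1 y - T1 x) + 29 := by
  unfold T1
  split_ifs <;> omega

lemma T2_dens (x y : ℤ) (hxy : x ≤ y) : 7 * (y - x) ≤ 30 * (T2 y - T2 x) + 29 := by
  unfold T2
  split_ifs <;> omega

section cases

variable {k : ℕ} (hk : 0 < k) (a : Fin k → ℝ) (ha : ∀ i, 1 ≤ a i)

include hk ha

/-- the pattern of period 12 -/
theorem pattern12 (j1 j2 : Fin k) (hne : j1 ≠ j2) (h1 : 30 / 19 ≤ a j1) (h2 : 30 / 7 ≤ a j2)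
    (hr : ∑ i ∈ (({j1, j2} : Finset (Fin k))ᶜ), 1 / a i ≤ 1 / 24) : Sched a := by
  classical
  have hpos : ∀ i, 0 < a i := fun i => lt_of_lt_of_le one_pos (ha i)
  have hb : ∀ i ∈ (({j1, j2} : Finset (Fin k))ᶜ), ((12 : ℕ) : ℝ) ≤ a i := by
    intro i hi
    have h3 : 1 / a i ≤ 1 / 24 := by
      refine le_trans ?_ hr
      apply single_le_sum (f := fun i => 1 / a i) _ hi
      intro x _
      have := hpos x
      positivity
    rw [div_le_div_iff₀ (hpos i) (by norm_num)] at h3
    push_cast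
    linarith
  obtain ⟨p, S3, hS3, hp⟩ := exponents (({j1, j2} : Finset (Fin k))ᶜ) a 12 (by norm_num) hb (by
    push_cast
    norm_num
    norm_num at hr
    exact hr)
  have hIV := S12_IV j1 j2 S3 _ p hS3
  refine ⟨fun t => (S12 j1 j2 S3 t).getD ⟨0, hk⟩, ?_⟩
  intro i l m
  have hLnn : (0 : ℝ) ≤ (l : ℝ) * a i := mul_nonneg (Nat.cast_nonneg _) (hpos i).le
  have hceil := Int.le_ceil ((l : ℝ) * a i)
  have hceil0 := Int.ceil_nonneg hLnn
  set L : ℤ := ⌈(l : ℝ) * a i⌉ with hL
  have main : l ≤ ((Ico m (m + L)).filter (fun t => S12 j1 j2 S3 t = some i)).card := by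
    by_cases hi1 : i = j1
    · subst hi1
      have h := step_card T1_step (fun t => S12 i j2 S3 t = some i) (by
        intro t ht
        obtain ⟨g0, g1, g2, g3⟩ := T1_pos t ht
        unfold S12
        rw [if_neg g0, if_neg (by omega)]) m (m + L) (by omega)
      have hd := T1_dens m (m + L) (by omega)
      have h5 : 30 * (l : ℤ) ≤ 19 * L := by
        have h6 : (30 : ℝ) * l ≤ 19 * (L : ℝ) := by
          have h7 : (l : ℝ) * (30 / 19) ≤ (l : ℝ) * a i :=
            mul_le_mul_of_nonneg_left h1 (Nat.cast_nonneg _)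
          linarith
        exact_mod_cast h6
      omega
    · by_cases hi2 : i = j2
      · subst hi2
        have h := step_card T2_step (fun t => S12 j1 i S3 t = some i) (by
          intro t ht
          obtain ⟨g0, g1⟩ := T2_pos t ht
          unfold S12
          rw [if_neg g0, if_pos g1]) m (m + L) (by omega)
        have hd := T2_dens m (m + L) (by omega)
        have h5 : 30 * (l : ℤ) ≤ 7 * L := by
          have h6 : (30 : ℝ) * l ≤ 7 * (L : ℝ) := by
            have h7 : (l : ℝ) * (30 / 7) ≤ (l : ℝ) * a i :=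
              mul_le_mul_of_nonneg_left h2 (Nat.cast_nonneg _)
            linarith
          exact_mod_cast h6
        omega
      · have hi : i ∈ (({j1, j2} : Finset (Fin k))ᶜ) := by
          rw [mem_compl, mem_insert, mem_singleton, not_or]
          exact ⟨hi1, hi2⟩
        apply IV_count hIV i hi l
        have h5 : (l : ℤ) * ((12 * p i : ℕ) : ℤ) ≤ L := by
          have h6 : ((l : ℝ) * ((12 * p i : ℕ) : ℝ)) ≤ (L : ℝ) := by
            have := mul_le_mul_of_nonneg_left (hp i hi) (Nat.cast_nonneg (α := ℝ) l)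
            linarith
          exact_mod_cast h6
        linarith
  refine main.trans (card_le_card ?_)
  intro t ht
  rw [mem_filter] at ht ⊢
  refine ⟨ht.1, ?_⟩
  simp only
  rw [ht.2]
  rfl

/-- two of three slots in the complement for the second task -/
theorem slots23 (j1 j2 : Fin k) (hne : j1 ≠ j2) (h1 : 3 / 2 ≤ a j1) (h1' : a j1 ≤ 5 / 3)
    (h2 : 5 < a j2) (h2' : (1 - 1 / a j1) * a j2 < 2) (hD : ∑ i, 1 / a i ≤ 5 / 6) : Sched a := by
  classical
  have hpos : ∀ i, 0 < a i := fun i => lt_of_lt_of_le one_pos (ha i)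
  set v : ℝ := 1 - 1 / a j1 with hv
  have hv1 : 1 / 3 ≤ v := by
    have : 1 / a j1 ≤ 2 / 3 := by
      rw [div_le_div_iff₀ (hpos j1) (by norm_num)]
      linarith
    linarith
  have hv2 : v ≤ 2 / 5 := by
    have : 3 / 5 ≤ 1 / a j1 := by
      rw [div_le_div_iff₀ (by norm_num) (hpos j1)]
      linarith
    linarith
  have hv0 : 0 < v := by linarith
  have hd : v / 2 < 1 / a j2 := by
    rw [div_lt_div_iff₀ (by norm_num) (hpos j2)]
    linarith
  have e := Finset.sum_add_sum_compl ({j1, j2} : Finset (Fin k)) (fun i => 1 / a i)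
  rw [sum_pair hne] at e
  have hrest : ∑ i ∈ (({j1, j2} : Finset (Fin k))ᶜ), 1 / a i ≤ v - 1 / 6 - 1 / a j2 := by
    linarith
  have hrest0 : (0 : ℝ) ≤ ∑ i ∈ (({j1, j2} : Finset (Fin k))ᶜ), 1 / a i := by
    apply sum_nonneg
    intro x _
    have := hpos x
    positivity
  have hd2 : 1 / a j2 ≤ v - 1 / 6 := by linarith
  have hb2 : 12 / 7 ≤ v * a j2 := by
    have h3 : 1 ≤ (v - 1 / 6) * a j2 := by
      have := mul_le_mul_of_nonneg_right hd2 (hpos j2).le
      rwa [one_div_mul_cancel (ne_of_gt (hpos j2))] at this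
    nlinarith [hpos j2]
  have hb : ∀ i ∈ (({j1, j2} : Finset (Fin k))ᶜ), ((3 : ℕ) : ℝ) ≤ v * a i := by
    intro i hi
    have h3 : 1 / a i ≤ v / 3 := by
      have h4 : 1 / a i ≤ ∑ i ∈ (({j1, j2} : Finset (Fin k))ᶜ), 1 / a i := by
        apply single_le_sum (f := fun i => 1 / a i) _ hi
        intro x _
        have := hpos x
        positivity
      linarith
    rw [div_le_div_iff₀ (hpos i) (by norm_num)] at h3
    push_cast
    linarith
  obtain ⟨p, S3, hS3, hp⟩ := exponents (({j1, j2} : Finset (Fin k))ᶜ) (fun i => v * a i) 3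
    (by norm_num) hb (by
      have e2 : ∑ i ∈ (({j1, j2} : Finset (Fin k))ᶜ), 1 / (v * a i) =
          (∑ i ∈ (({j1, j2} : Finset (Fin k))ᶜ), 1 / a i) / v := by
        rw [sum_div]
        apply sum_congr rfl
        intro i _
        have := hpos i
        field_simp
      rw [e2, div_le_iff₀ hv0]
      push_cast
      linarith)
  have hIV := S23_IV j2 S3 _ p hS3
  obtain ⟨S, hSj, hSi⟩ := combineG j1 (S23 j2 S3) (a j1) (ha j1)
  refine ⟨fun t => (S t).getD ⟨0, hk⟩, ?_⟩
  intro i l m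
  have main : l ≤ ((Ico m (m + ⌈(l : ℝ) * a i⌉)).filter (fun t => S t = some i)).card := by
    by_cases hi1 : i = j1
    · subst hi1
      exact hSj l m
    have hLnn : (0 : ℝ) ≤ (l : ℝ) * a i := mul_nonneg (Nat.cast_nonneg _) (hpos i).le
    have hceil := Int.le_ceil ((l : ℝ) * a i)
    obtain ⟨L, hL⟩ := Int.eq_ofNat_of_zero_le (Int.ceil_nonneg hLnn)
    rw [hL] at hceil ⊢
    have hceil' : (l : ℝ) * a i ≤ (L : ℝ) := by exact_mod_cast hceil
    obtain ⟨x, y, hxy, hcard⟩ := hSi i m L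
    rw [← hv] at hxy
    refine le_trans ?_ hcard
    have hfl0 : (0 : ℤ) ≤ ⌊(L : ℝ) * v⌋ := Int.floor_nonneg.mpr (by positivity)
    by_cases hi2 : i = j2
    · subst hi2
      apply S23_count i S3 x y (by linarith) l
      have key : 3 * (l : ℤ) ≤ 2 * ⌊(L : ℝ) * v⌋ := by
        have hLv : (l : ℝ) * (12 / 7) ≤ (L : ℝ) * v := by
          have h5 : (l : ℝ) * (12 / 7) ≤ (l : ℝ) * (v * a i) :=
            mul_le_mul_of_nonneg_left hb2 (Nat.cast_nonneg _)
          have h6 : ((l : ℝ) * a i) * v ≤ (L : ℝ) * v := mul_le_mul_of_nonneg_right hceil' hv0.le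
          linarith
        rcases Nat.lt_or_ge l 1 with h0 | h0
        · have : l = 0 := by omega
          subst this
          push_cast
          linarith
        rcases Nat.lt_or_ge l 2 with h0' | h0'
        · have hl1 : l = 1 := by omega
          subst hl1
          have hL6 : 6 ≤ L := by
            have h7 : (5 : ℝ) < (L : ℝ) := by
              push_cast at hceil'
              linarith
            have h8 : 5 < L := by exact_mod_cast h7
            omega
          have h9 : (2 : ℤ) ≤ ⌊(L : ℝ) * v⌋ := by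
            apply Int.le_floor.mpr
            have h10 : (6 : ℝ) ≤ (L : ℝ) := by exact_mod_cast hL6
            push_cast
            nlinarith
          push_cast
          linarith
        rcases Nat.lt_or_ge l 3 with h0'' | h0''
        · have hl2 : l = 2 := by omega
          subst hl2
          have h9 : (3 : ℤ) ≤ ⌊(L : ℝ) * v⌋ := by
            apply Int.le_floor.mpr
            push_cast at hLv ⊢
            linarith
          push_cast
          linarith
        · have h9 : (((3 * l + 1) / 2 : ℕ) : ℤ) ≤ ⌊(L : ℝ) * v⌋ := by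
            apply Int.le_floor.mpr
            have h10 : 2 * ((3 * l + 1) / 2) ≤ 3 * l + 1 := Nat.mul_div_le _ _
            have h11 : (2 : ℝ) * (((3 * l + 1) / 2 : ℕ) : ℝ) ≤ 3 * (l : ℝ) + 1 := by
              exact_mod_cast h10
            have h12 : (3 : ℝ) ≤ (l : ℝ) := by exact_mod_cast h0''
            have h13 : ((((3 * l + 1) / 2 : ℕ) : ℤ) : ℝ) = (((3 * l + 1) / 2 : ℕ) : ℝ) := by
              push_cast
              rfl
            rw [h13]
            linarith
          omega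
      linarith
    · have hi : i ∈ (({j1, j2} : Finset (Fin k))ᶜ) := by
        rw [mem_compl, mem_insert, mem_singleton, not_or]
        exact ⟨hi1, hi2⟩
      apply IV_count hIV i hi l
      have h5 : (l : ℤ) * ((3 * p i : ℕ) : ℤ) ≤ ⌊(L : ℝ) * v⌋ := by
        apply Int.le_floor.mpr
        have h6 := mul_le_mul_of_nonneg_left (hp i hi) (Nat.cast_nonneg (α := ℝ) l)
        have h7 : ((l : ℝ) * a i) * v ≤ (L : ℝ) * v := mul_le_mul_of_nonneg_right hceil' hv0.le
        push_cast at h6 ⊢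
        linarith
      linarith
  refine main.trans (card_le_card ?_)
  intro t ht
  rw [mem_filter] at ht ⊢
  refine ⟨ht.1, ?_⟩
  simp only
  rw [ht.2]
  rfl

/-- **density `5/6` for a period at most `5/3`** -/
theorem five_thirds_all (j : Fin k) (hj : a j ≤ 5 / 3) (hD : ∑ i, 1 / a i ≤ 5 / 6) : Sched a := by
  classical
  have hpos : ∀ i, 0 < a i := fun i => lt_of_lt_of_le one_pos (ha i)
  by_cases h1 : a j ≤ 3 / 2
  · apply one_task hk a ha j
    have h2 : 1 / 3 ≤ 1 / (2 * a j) := by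
      apply one_div_le_one_div_of_le (by have := hpos j; positivity)
      linarith
    linarith
  push Not at h1
  by_cases h2 : ∀ i, i ≠ j → 2 ≤ (1 - 1 / a j) * a i
  · exact five_thirds hk a ha j hj h2 hD
  push Not at h2
  obtain ⟨j2, hj2, h2⟩ := h2
  by_cases h3 : 5 < a j2
  · exact slots23 hk a ha j j2 (Ne.symm hj2) h1.le hj h3 h2 hD
  push Not at h3
  have hu : 3 / 5 ≤ 1 / a j := by
    rw [div_le_div_iff₀ (by norm_num) (hpos j)]
    linarith
  have hd : 1 / 5 ≤ 1 / a j2 := one_div_le_one_div_of_le (hpos j2) h3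
  have e := Finset.sum_add_sum_compl ({j, j2} : Finset (Fin k)) (fun i => 1 / a i)
  rw [sum_pair (Ne.symm hj2)] at e
  have hrest0 : (0 : ℝ) ≤ ∑ i ∈ (({j, j2} : Finset (Fin k))ᶜ), 1 / a i := by
    apply sum_nonneg
    intro x _
    have := hpos x
    positivity
  apply pattern12 hk a ha j j2 (Ne.symm hj2)
  · have h4 : 1 / a j ≤ 19 / 30 := by linarith
    rw [div_le_div_iff₀ (hpos j) (by norm_num)] at h4
    linarith
  · have h4 : 1 / a j2 ≤ 7 / 30 := by linarith
    rw [div_le_div_iff₀ (hpos j2) (by norm_num)] at h4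
    linarith
  · linarith

end cases

end Pool.Agent.H210R2.Pin
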